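import Pool.Agent.H695R3.PP.Stmts

set_option autoImplicit false

open scoped BigOperators ENNReal
open MeasureTheory

namespace Pool.Agent.H695R3.PP.AvgH773

/-- Jensen's inequality for the uniform measure. -/
theorem jensen (h : ℝ → ℝ≥0∞) (hh : Measurable h) :
    (∫⁻ s, h s ∂U) ≤ (∫⁻ s, h s ^ 2 ∂U) ^ (1 / 2 : ℝ) := by
  have hpq : (2 : ℝ).HolderConjugate 2 := by
    rw [Real.holderConjugate_iff]; norm_num
  have := ENNReal.lintegral_mul_le_Lp_mul_Lq U hpq hh.aemeasurable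
    (g := fun _ => (1 : ℝ≥0∞)) aemeasurable_const
  simpa using this

theorem jensen_sq (h : ℝ → ℝ≥0∞) (hh : Measurable h) :
    (∫⁻ s, h s ∂U) ^ 2 ≤ ∫⁻ s, h s ^ 2 ∂U := by
  have h1 := jensen h hh
  calc (∫⁻ s, h s ∂U) ^ 2 ≤ ((∫⁻ s, h s ^ 2 ∂U) ^ (1 / 2 : ℝ)) ^ 2 := by gcongr
    _ = ∫⁻ s, h s ^ 2 ∂U := by
      rw [← ENNReal.rpow_natCast, ← ENNReal.rpow_mul]
      norm_num

theorem meas_avg (ε : ℝ) (g : ℝ → ℝ≥0∞) (hg : Measurable g) : Measurable (avg ε g) := by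
  unfold avg
  have : Measurable (fun p : ℝ × ℝ => g (p.1 + ε * p.2)) := by fun_prop
  exact this.lintegral_prod_right'

theorem avg_sq_le (ε : ℝ) (g : ℝ → ℝ≥0∞) (hg : Measurable g) (x : ℝ) :
    avg ε g x ^ 2 ≤ ∫⁻ s, g (x + ε * s) ^ 2 ∂U :=
  jensen_sq (fun s => g (x + ε * s)) (by fun_prop)

theorem nsq_avg (ε : ℝ) (g : ℝ → ℝ≥0∞) (hg : Measurable g) : nsqL (avg ε g) ≤ nsqL g := by
  unfold nsqL
  calc ∫⁻ x, avg ε g x ^ 2 ≤ ∫⁻ x, ∫⁻ s, g (x + ε * s) ^ 2 ∂U := by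
        apply lintegral_mono; intro x; exact avg_sq_le ε g hg x
    _ = ∫⁻ s, (∫⁻ x, g (x + ε * s) ^ 2) ∂U := by
        rw [lintegral_lintegral_swap]
        have : Measurable (fun p : ℝ × ℝ => g (p.1 + ε * p.2) ^ 2) := by fun_prop
        exact this.aemeasurable
    _ = ∫⁻ s, (∫⁻ x, g x ^ 2) ∂U := by
        apply lintegral_congr; intro s
        exact lintegral_add_right_eq_self (fun x => g x ^ 2) (ε * s)
    _ = ∫⁻ x, g x ^ 2 := by simp

theorem ae_U : ∀ᵐ s ∂U, s ∈ Set.Icc (-1 : ℝ) 1 := by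
  unfold U
  exact Measure.ae_smul_measure (ae_restrict_mem measurableSet_Icc) _

theorem nsq_box (ε : ℝ) (g : ℝ → ℝ≥0∞) (h0 : 0 < ε) (h1 : ε ≤ 1) (hg : Measurable g) (c : ℝ) :
    ∫⁻ y in Set.Icc (c - 1) (c + 1), avg ε g y ^ 2 ≤
      ∫⁻ y in Set.Icc (c - 2) (c + 2), g y ^ 2 := by
  set g' : ℝ → ℝ≥0∞ := (Set.Icc (c - 2) (c + 2)).indicator g with hg'
  have hm : Measurable g' := hg.indicator measurableSet_Icc
  have e1 : ∀ y ∈ Set.Icc (c - 1) (c + 1), avg ε g y = avg ε g' y := by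
    intro y hy
    unfold avg
    apply lintegral_congr_ae
    filter_upwards [ae_U] with s hs
    have : y + ε * s ∈ Set.Icc (c - 2) (c + 2) := by
      obtain ⟨a1, a2⟩ := hy
      obtain ⟨b1, b2⟩ := hs
      constructor <;> nlinarith
    rw [hg', Set.indicator_of_mem this]
  calc ∫⁻ y in Set.Icc (c - 1) (c + 1), avg ε g y ^ 2
      = ∫⁻ y in Set.Icc (c - 1) (c + 1), avg ε g' y ^ 2 := by
        apply setLIntegral_congr_fun measurableSet_Icc
        intro y hy; simp only; rw [e1 y hy]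
    _ ≤ ∫⁻ y, avg ε g' y ^ 2 := setLIntegral_le_lintegral _ _
    _ ≤ ∫⁻ y, g' y ^ 2 := nsq_avg ε g' hm
    _ = ∫⁻ y, (Set.Icc (c - 2) (c + 2)).indicator (fun y => g y ^ 2) y := by
        apply lintegral_congr; intro y
        rw [hg']
        by_cases hy : y ∈ Set.Icc (c - 2) (c + 2)
        · rw [Set.indicator_of_mem hy, Set.indicator_of_mem hy]
        · rw [Set.indicator_of_notMem hy, Set.indicator_of_notMem hy]; simp
    _ = ∫⁻ y in Set.Icc (c - 2) (c + 2), g y ^ 2 := lintegral_indicator measurableSet_Icc _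

theorem scale (ε : ℝ) (g : ℝ → ℝ≥0∞) (h0 : 0 < ε) (hg : Measurable g) (x : ℝ) :
    ∫⁻ s, g (x + ε * s) ^ 2 ∂U ≤ ENNReal.ofReal (1 / ε) * nsqL g := by
  unfold U nsqL
  rw [lintegral_smul_measure]
  have e : ∫⁻ s, g (x + ε * s) ^ 2 = ENNReal.ofReal (1 / ε) * ∫⁻ y, g y ^ 2 := by
    have hm : Measurable (fun y => g (x + y) ^ 2) := by fun_prop
    have hmap := Real.map_volume_mul_left (a := ε) h0.ne'
    have h2 : ∫⁻ s, g (x + ε * s) ^ 2 = ∫⁻ y, g (x + y) ^ 2 ∂(Measure.map (ε * ·) volume) := by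
      rw [lintegral_map hm (by fun_prop)]
    rw [h2, hmap, lintegral_smul_measure, lintegral_add_left_eq_self (fun y => g y ^ 2) x,
      abs_of_pos (inv_pos.mpr h0), smul_eq_mul, one_div]
  calc ENNReal.ofReal (1 / 2) • ∫⁻ s in Set.Icc (-1) 1, g (x + ε * s) ^ 2
      ≤ 1 • ∫⁻ s, g (x + ε * s) ^ 2 := by
        rw [smul_eq_mul, one_smul]
        calc ENNReal.ofReal (1 / 2) * ∫⁻ s in Set.Icc (-1) 1, g (x + ε * s) ^ 2
            ≤ 1 * ∫⁻ s, g (x + ε * s) ^ 2 := by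
              gcongr
              · rw [ENNReal.ofReal_le_one]; norm_num
              · exact Measure.restrict_le_self
          _ = _ := one_mul _
    _ = ENNReal.ofReal (1 / ε) * ∫⁻ y, g y ^ 2 := by rw [one_smul, e]

theorem t : TaskAvg := by
  intro ε g h0 h1 hg
  refine ⟨meas_avg ε g hg, nsq_avg ε g hg, nsq_box ε g h0 h1 hg, fun x => ?_⟩
  calc avg ε g x ≤ (∫⁻ s, g (x + ε * s) ^ 2 ∂U) ^ (1 / 2 : ℝ) :=
        jensen (fun s => g (x + ε * s)) (by fun_prop)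
    _ ≤ (ENNReal.ofReal (1 / ε) * nsqL g) ^ (1 / 2 : ℝ) := by
        gcongr
        exact scale ε g h0 hg x
    _ = ENNReal.ofReal (1 / Real.sqrt ε) * nsqL g ^ (1 / 2 : ℝ) := by
        rw [ENNReal.mul_rpow_of_nonneg _ _ (by norm_num : (0 : ℝ) ≤ 1 / 2),
          ENNReal.ofReal_rpow_of_nonneg (by positivity) (by norm_num)]
        congr 2
        rw [← Real.sqrt_eq_rpow, Real.sqrt_div zero_le_one, Real.sqrt_one]

end Pool.Agent.H695R3.PP.AvgH773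

theorem Pool.Agent.H773.PP.taskAvg : Pool.Agent.H695R3.PP.TaskAvg := Pool.Agent.H695R3.PP.AvgH773.t
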